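import Pool.Agent.R111.Klarner.Growth

/-!
# The number of fixed polyominoes is a computable function
-/

set_option autoImplicit false

namespace Pool.Agent.R111.Klarner

open Finset

/-- Adjacency of cells with natural coordinates. -/
def NAdj (p q : ℕ × ℕ) : Prop :=
  (p.1 = q.1 ∧ (q.2 = p.2 + 1 ∨ p.2 = q.2 + 1)) ∨ (p.2 = q.2 ∧ (q.1 = p.1 + 1 ∨ p.1 = q.1 + 1))

instance : DecidableRel NAdj := fun p q => by unfold NAdj; infer_instance

/-- The cells of the `n × n` box. -/
def box (n : ℕ) : List (ℕ × ℕ) :=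
  (List.range n).flatMap (fun x => (List.range n).map (fun y => (x, y)))

/-- All sublists. -/
def subl (l : List (ℕ × ℕ)) : List (List (ℕ × ℕ)) :=
  l.foldr (fun c acc => acc ++ acc.map (fun s => c :: s)) [[]]

/-- The set `B` is joined to the rest of `l`. -/
def Joined (l B : List (ℕ × ℕ)) : Prop :=
  B = [] ∨ (∀ c ∈ l, c ∈ B) ∨ ∃ c ∈ l, c ∉ B ∧ ∃ b ∈ B, NAdj b c

/-- The list `l` describes a normalised `n`-omino. -/
def Good (l : List (ℕ × ℕ)) (n : ℕ) : Prop :=
  l.length = n ∧ l ≠ [] ∧ (∀ B ∈ subl l, Joined l B) ∧ (∃ c ∈ l, c.1 = 0) ∧ ∃ c ∈ l, c.2 = 0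

instance : DecidableRel Joined := fun l B => by unfold Joined; infer_instance

instance : DecidableRel Good := fun l n => by unfold Good; infer_instance

/-- The number of normalised `n`-ominoes, computed by enumeration. -/
def count (n : ℕ) : ℕ := ((subl (box n)).filter (fun l => Good l n)).length

/-! ### Primitive recursiveness -/

theorem primrec_nadj : PrimrecRel NAdj := by
  have f1 : Primrec fun x : (ℕ × ℕ) × (ℕ × ℕ) => x.1.1 := Primrec.fst.comp Primrec.fst
  have f2 : Primrec fun x : (ℕ × ℕ) × (ℕ × ℕ) => x.1.2 := Primrec.snd.comp Primrec.fst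
  have f3 : Primrec fun x : (ℕ × ℕ) × (ℕ × ℕ) => x.2.1 := Primrec.fst.comp Primrec.snd
  have f4 : Primrec fun x : (ℕ × ℕ) × (ℕ × ℕ) => x.2.2 := Primrec.snd.comp Primrec.snd
  have s1 : Primrec fun x : (ℕ × ℕ) × (ℕ × ℕ) => x.1.1 + 1 := Primrec.succ.comp f1
  have s2 : Primrec fun x : (ℕ × ℕ) × (ℕ × ℕ) => x.1.2 + 1 := Primrec.succ.comp f2
  have s3 : Primrec fun x : (ℕ × ℕ) × (ℕ × ℕ) => x.2.1 + 1 := Primrec.succ.comp f3
  have s4 : Primrec fun x : (ℕ × ℕ) × (ℕ × ℕ) => x.2.2 + 1 := Primrec.succ.comp f4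
  exact ((Primrec.eq.comp f1 f3).and ((Primrec.eq.comp f4 s2).or (Primrec.eq.comp f2 s4))).or
    ((Primrec.eq.comp f2 f4).and ((Primrec.eq.comp f3 s1).or (Primrec.eq.comp f1 s3)))

theorem primrec_box : Primrec box := by
  unfold box
  apply Primrec.list_flatMap Primrec.list_range
  apply Primrec.list_map (Primrec.list_range.comp Primrec.fst)
  exact Primrec.pair (Primrec.snd.comp Primrec.fst) Primrec.snd

theorem primrec_subl : Primrec subl := by
  unfold subl
  have h : Primrec₂ (fun (_ : List (ℕ × ℕ)) (p : (ℕ × ℕ) × List (List (ℕ × ℕ))) =>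
      p.2 ++ p.2.map (fun s => p.1 :: s)) := by
    apply Primrec.list_append.comp (Primrec.snd.comp Primrec.snd)
    apply Primrec.list_map (Primrec.snd.comp Primrec.snd)
    exact Primrec.list_cons.comp (Primrec.fst.comp (Primrec.snd.comp Primrec.fst)) Primrec.snd
  exact Primrec.list_foldr Primrec.id (Primrec.const [[]]) h

theorem primrec_mem : PrimrecRel (fun (c : ℕ × ℕ) (l : List (ℕ × ℕ)) => c ∈ l) := by
  have h1 : PrimrecRel (fun (l : List (ℕ × ℕ)) (c : ℕ × ℕ) => ∃ a ∈ l, a = c) :=
    PrimrecRel.exists_mem_list (R := fun (a c : ℕ × ℕ) => a = c) Primrec.eq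
  exact (h1.comp Primrec.snd Primrec.fst).of_eq (fun x => by simp)

theorem primrec_joined : PrimrecRel Joined := by
  have h1 : PrimrecPred (fun x : List (ℕ × ℕ) × List (ℕ × ℕ) => x.2 = []) :=
    Primrec.eq.comp Primrec.snd (Primrec.const [])
  have h2 : PrimrecPred (fun x : List (ℕ × ℕ) × List (ℕ × ℕ) => ∀ c ∈ x.1, c ∈ x.2) :=
    PrimrecRel.forall_mem_list primrec_mem
  have h3 : PrimrecRel (fun (c : ℕ × ℕ) (B : List (ℕ × ℕ)) => c ∉ B ∧ ∃ b ∈ B, NAdj b c) := by
    have e1 : PrimrecRel (fun (B : List (ℕ × ℕ)) (c : ℕ × ℕ) => ∃ b ∈ B, NAdj b c) :=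
      PrimrecRel.exists_mem_list primrec_nadj
    exact PrimrecPred.and (PrimrecPred.not primrec_mem) (e1.comp Primrec.snd Primrec.fst)
  have h4 : PrimrecPred (fun x : List (ℕ × ℕ) × List (ℕ × ℕ) =>
      ∃ c ∈ x.1, c ∉ x.2 ∧ ∃ b ∈ x.2, NAdj b c) := PrimrecRel.exists_mem_list h3
  exact h1.or (h2.or h4)

theorem primrec_good : PrimrecRel Good := by
  have h1 : PrimrecPred (fun x : List (ℕ × ℕ) × ℕ => x.1.length = x.2) :=
    Primrec.eq.comp (Primrec.list_length.comp Primrec.fst) Primrec.snd
  have h2 : PrimrecPred (fun x : List (ℕ × ℕ) × ℕ => x.1 ≠ []) :=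
    PrimrecPred.not (Primrec.eq.comp Primrec.fst (Primrec.const []))
  have h3 : PrimrecPred (fun x : List (ℕ × ℕ) × ℕ => ∀ B ∈ subl x.1, Joined x.1 B) := by
    have e0 : PrimrecRel (fun (B l : List (ℕ × ℕ)) => Joined l B) :=
      primrec_joined.comp Primrec.snd Primrec.fst
    have e1 : PrimrecRel (fun (L : List (List (ℕ × ℕ))) (l : List (ℕ × ℕ)) => ∀ B ∈ L, Joined l B) :=
      PrimrecRel.forall_mem_list e0
    exact e1.comp (primrec_subl.comp Primrec.fst) Primrec.fst
  have h4 : PrimrecPred (fun x : List (ℕ × ℕ) × ℕ => ∃ c ∈ x.1, c.1 = 0) := by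
    have e0 : PrimrecPred (fun c : ℕ × ℕ => c.1 = 0) := Primrec.eq.comp Primrec.fst (Primrec.const 0)
    exact e0.exists_mem_list.comp Primrec.fst
  have h5 : PrimrecPred (fun x : List (ℕ × ℕ) × ℕ => ∃ c ∈ x.1, c.2 = 0) := by
    have e0 : PrimrecPred (fun c : ℕ × ℕ => c.2 = 0) := Primrec.eq.comp Primrec.snd (Primrec.const 0)
    exact e0.exists_mem_list.comp Primrec.fst
  exact h1.and (h2.and (h3.and (h4.and h5)))

theorem primrec_count : Primrec count := by
  unfold count
  apply Primrec.list_length.comp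
  exact (PrimrecRel.listFilter primrec_good).comp (primrec_subl.comp primrec_box) Primrec.id

/-! ### Correctness -/

theorem mem_subl {l s : List (ℕ × ℕ)} : s ∈ subl l ↔ List.Sublist s l := by
  induction l generalizing s with
  | nil => simp [subl]
  | cons a l ih =>
    have e : subl (a :: l) = subl l ++ (subl l).map (fun s => a :: s) := rfl
    rw [e, List.mem_append, List.mem_map, ih, List.sublist_cons_iff]
    constructor
    · rintro (h | ⟨r, hr, rfl⟩)
      · exact Or.inl h
      · exact Or.inr ⟨r, rfl, ih.1 hr⟩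
    · rintro (h | ⟨r, rfl, hr⟩)
      · exact Or.inl h
      · exact Or.inr ⟨r, ih.2 hr, rfl⟩

theorem nodup_subl {l : List (ℕ × ℕ)} (h : l.Nodup) : (subl l).Nodup := by
  induction l with
  | nil => simp [subl]
  | cons a l ih =>
    have e : subl (a :: l) = subl l ++ (subl l).map (fun s => a :: s) := rfl
    rw [List.nodup_cons] at h
    rw [e, List.nodup_append]
    refine ⟨ih h.2, (ih h.2).map (fun x y hxy => by simpa using hxy), ?_⟩
    intro s hs r hr hsr
    rw [List.mem_map] at hr
    obtain ⟨q, _, rfl⟩ := hr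
    rw [mem_subl] at hs
    apply h.1
    apply hs.subset
    rw [hsr]
    exact List.mem_cons_self

theorem sublist_eq_filter {l s : List (ℕ × ℕ)} (hl : l.Nodup) (h : List.Sublist s l) :
    s = l.filter (fun c => c ∈ s) := by
  induction h with
  | slnil => rfl
  | @cons s l a h ih =>
    rw [List.nodup_cons] at hl
    have ha : a ∉ s := fun h' => hl.1 (h.subset h')
    rw [List.filter_cons_of_neg (by simpa using ha)]
    exact ih hl.2
  | @cons_cons s l a h ih =>
    rw [List.nodup_cons] at hl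
    rw [List.filter_cons_of_pos (by simp)]
    congr 1
    rw [ih hl.2]
    apply List.filter_congr
    intro x hx
    have hxa : x ≠ a := fun h' => hl.1 (h' ▸ hx)
    simp only [List.mem_cons, hxa, false_or, decide_eq_decide]
    rw [← ih hl.2]

theorem nodup_box (n : ℕ) : (box n).Nodup := by
  unfold box
  rw [List.nodup_flatMap]
  refine ⟨?_, ?_⟩
  · intro x _
    exact List.nodup_range.map (fun a b h => by simpa using h)
  · refine List.Pairwise.imp ?_ List.nodup_range
    intro a b hab
    rw [Function.onFun, List.disjoint_left]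
    intro c hc hc'
    rw [List.mem_map] at hc hc'
    obtain ⟨y, _, rfl⟩ := hc
    obtain ⟨z, _, hz⟩ := hc'
    simp only [Prod.mk.injEq] at hz
    exact hab hz.1.symm

theorem mem_box {n : ℕ} {c : ℕ × ℕ} : c ∈ box n ↔ c.1 < n ∧ c.2 < n := by
  unfold box
  rw [List.mem_flatMap]
  constructor
  · rintro ⟨x, hx, hc⟩
    rw [List.mem_map] at hc
    obtain ⟨y, hy, rfl⟩ := hc
    rw [List.mem_range] at hx hy
    exact ⟨hx, hy⟩
  · rintro ⟨h1, h2⟩
    exact ⟨c.1, List.mem_range.2 h1, List.mem_map.2 ⟨c.2, List.mem_range.2 h2, rfl⟩⟩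

/-- The embedding of cells with natural coordinates. -/
def emb : (ℕ × ℕ) ↪ (ℤ × ℤ) := ⟨fun c => ((c.1 : ℤ), (c.2 : ℤ)), fun a b h => by
  simp only [Prod.mk.injEq, Nat.cast_inj] at h
  exact Prod.ext h.1 h.2⟩

theorem emb_apply (c : ℕ × ℕ) : emb c = ((c.1 : ℤ), (c.2 : ℤ)) := rfl

/-- The set of cells described by a list. -/
def toSet (l : List (ℕ × ℕ)) : Finset (ℤ × ℤ) := l.toFinset.map emb

theorem mem_toSet {l : List (ℕ × ℕ)} {p : ℤ × ℤ} : p ∈ toSet l ↔ ∃ c ∈ l, emb c = p := by
  unfold toSet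
  rw [Finset.mem_map]
  simp

theorem emb_mem_toSet {l : List (ℕ × ℕ)} {c : ℕ × ℕ} : emb c ∈ toSet l ↔ c ∈ l := by
  rw [mem_toSet]
  constructor
  · rintro ⟨d, hd, h⟩
    rwa [← emb.injective h]
  · intro h
    exact ⟨c, h, rfl⟩

theorem nadj_iff (c d : ℕ × ℕ) : cellGraph.Adj (emb c) (emb d) ↔ NAdj c d := by
  rw [adj_iff, emb_apply, emb_apply]
  unfold NAdj
  simp only
  omega

theorem good_iff {n : ℕ} {l : List (ℕ × ℕ)} (hl : l.Nodup) :
    Good l n ↔ (toSet l).card = n ∧ Conn cellGraph (toSet l) ∧ Norm (toSet l) := by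
  have hcard : (toSet l).card = l.length := by
    unfold toSet
    rw [Finset.card_map, List.toFinset_card_of_nodup hl]
  have hnorm : Norm (toSet l) ↔ (∃ c ∈ l, c.1 = 0) ∧ ∃ c ∈ l, c.2 = 0 := by
    unfold Norm
    constructor
    · rintro ⟨_, ⟨p, hp, hp0⟩, ⟨q, hq, hq0⟩⟩
      rw [mem_toSet] at hp hq
      obtain ⟨c, hc, rfl⟩ := hp
      obtain ⟨d, hd, rfl⟩ := hq
      rw [emb_apply] at hp0 hq0
      simp only at hp0 hq0
      exact ⟨⟨c, hc, by omega⟩, ⟨d, hd, by omega⟩⟩
    · rintro ⟨⟨c, hc, hc0⟩, ⟨d, hd, hd0⟩⟩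
      refine ⟨?_, ⟨emb c, emb_mem_toSet.2 hc, ?_⟩, ⟨emb d, emb_mem_toSet.2 hd, ?_⟩⟩
      · intro p hp
        rw [mem_toSet] at hp
        obtain ⟨e, _, rfl⟩ := hp
        rw [emb_apply]
        simp
      · rw [emb_apply]; simp [hc0]
      · rw [emb_apply]; simp [hd0]
  have hconn : Conn cellGraph (toSet l) ↔ l ≠ [] ∧ ∀ B ∈ subl l, Joined l B := by
    constructor
    · rintro ⟨hne, h⟩
      refine ⟨?_, ?_⟩
      · rintro rfl
        obtain ⟨p, hp⟩ := hne
        rw [mem_toSet] at hp
        simp at hp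
      · intro B hB
        rw [mem_subl] at hB
        unfold Joined
        by_contra hcon
        rw [not_or, not_or] at hcon
        obtain ⟨h1, h2, h3⟩ := hcon
        obtain ⟨b, hb, c, hc, hcB, hadj⟩ := h (toSet B) (by
          intro p hp
          rw [mem_toSet] at hp ⊢
          obtain ⟨c, hc, rfl⟩ := hp
          exact ⟨c, hB.subset hc, rfl⟩) (by
          obtain ⟨x, hx⟩ := List.exists_mem_of_ne_nil B h1
          exact ⟨emb x, emb_mem_toSet.2 hx⟩) (by
          intro heq
          apply h2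
          intro c hc
          rw [← emb_mem_toSet (l := B), heq]
          exact emb_mem_toSet.2 hc)
        rw [mem_toSet] at hb hc
        obtain ⟨b', hb', rfl⟩ := hb
        obtain ⟨c', hc', rfl⟩ := hc
        rw [emb_mem_toSet] at hcB
        exact h3 ⟨c', hc', hcB, b', hb', (nadj_iff _ _).1 hadj⟩
    · rintro ⟨hne, h⟩
      obtain ⟨x, hx⟩ := List.exists_mem_of_ne_nil l hne
      refine ⟨⟨emb x, emb_mem_toSet.2 hx⟩, ?_⟩
      intro B hB hBne hBl
      have hsub : List.Sublist (l.filter (fun c => emb c ∈ B)) l := List.filter_sublist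
      rcases h _ (mem_subl.2 hsub) with h1 | h1 | h1
      · exfalso
        obtain ⟨p, hp⟩ := hBne
        obtain ⟨c, hc, rfl⟩ := mem_toSet.1 (hB hp)
        have : c ∈ l.filter (fun c => emb c ∈ B) := by
          rw [List.mem_filter]
          exact ⟨hc, by simpa using hp⟩
        rw [h1] at this
        simp at this
      · exfalso
        apply hBl
        apply Finset.Subset.antisymm hB
        intro p hp
        obtain ⟨c, hc, rfl⟩ := mem_toSet.1 hp
        have := h1 c hc
        rw [List.mem_filter] at this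
        simpa using this.2
      · obtain ⟨c, hc, hcB, b, hb, hadj⟩ := h1
        rw [List.mem_filter] at hb hcB
        refine ⟨emb b, by simpa using hb.2, emb c, emb_mem_toSet.2 hc, ?_, (nadj_iff _ _).2 hadj⟩
        intro h2
        exact hcB ⟨hc, by simpa using h2⟩
  unfold Good
  rw [hcard, hconn, hnorm]
  tauto

theorem count_eq (n : ℕ) : count n = t n := by
  rw [t_eq]
  unfold count
  have hnd : ((subl (box n)).filter (fun l => Good l n)).Nodup :=
    (nodup_subl (nodup_box n)).filter _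
  rw [← List.toFinset_card_of_nodup hnd]
  have hmem : ∀ l, l ∈ ((subl (box n)).filter (fun l => Good l n)).toFinset ↔
      List.Sublist l (box n) ∧ Good l n := by
    intro l
    rw [List.mem_toFinset, List.mem_filter, mem_subl]
    simp
  apply Finset.card_bij (fun l _ => toSet l)
  · intro l hl
    rw [hmem] at hl
    rw [mem_F]
    exact (good_iff ((nodup_box n).sublist hl.1)).1 hl.2
  · intro l hl r hr hlr
    rw [hmem] at hl hr
    rw [sublist_eq_filter (nodup_box n) hl.1, sublist_eq_filter (nodup_box n) hr.1]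
    apply List.filter_congr
    intro c _
    rw [decide_eq_decide, ← emb_mem_toSet (l := l), ← emb_mem_toSet (l := r), hlr]
  · intro A hA
    have hA' := hA
    rw [mem_F] at hA
    refine ⟨(box n).filter (fun c => emb c ∈ A), ?_, ?_⟩
    · have hset : toSet ((box n).filter (fun c => emb c ∈ A)) = A := by
        ext p
        rw [mem_toSet]
        constructor
        · rintro ⟨c, hc, rfl⟩
          rw [List.mem_filter] at hc
          simpa using hc.2
        · intro hp
          have h1 := extent_fst hA.2.1 hA.1 hA.2.2 p hp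
          have h2 := hA.2.2.1 p hp
          refine ⟨(p.1.toNat, p.2.toNat), ?_, ?_⟩
          · rw [List.mem_filter, mem_box]
            refine ⟨by simp only; omega, ?_⟩
            have : emb (p.1.toNat, p.2.toNat) = p := by
              rw [emb_apply]
              ext <;> simp <;> omega
            rw [this]
            simpa using hp
          · rw [emb_apply]
            ext <;> simp <;> omega
      rw [hmem]
      refine ⟨List.filter_sublist, ?_⟩
      rw [good_iff ((nodup_box n).sublist List.filter_sublist), hset]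
      exact hA
    · ext p
      rw [mem_toSet]
      constructor
      · rintro ⟨c, hc, rfl⟩
        rw [List.mem_filter] at hc
        simpa using hc.2
      · intro hp
        have h1 := extent_fst hA.2.1 hA.1 hA.2.2 p hp
        have h2 := hA.2.2.1 p hp
        have e : emb (p.1.toNat, p.2.toNat) = p := by
          rw [emb_apply]
          ext <;> simp <;> omega
        refine ⟨(p.1.toNat, p.2.toNat), ?_, e⟩
        rw [List.mem_filter, mem_box]
        refine ⟨by simp only; omega, ?_⟩
        rw [e]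
        simpa using hp

theorem primrec_t : Primrec t := primrec_count.of_eq count_eq

end Pool.Agent.R111.Klarner
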