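import Mathlib

/-!
# Connected finite vertex sets and balanced cuts

A finite set of vertices is connected if and only if every proper nonempty subset is joined by an
edge to its complement.  A connected set of `n ≥ 2` vertices of degree at most four can be split
into two connected parts, each of at least `(n - 1) / 4` vertices.
-/

set_option autoImplicit false

namespace Pool.Agent.R111.Klarner

open Finset

variable {V : Type*} [DecidableEq V] (G : SimpleGraph V)

/-- Connectedness in terms of cuts. -/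
def Conn (A : Finset V) : Prop :=
  A.Nonempty ∧ ∀ B ⊆ A, B.Nonempty → B ≠ A → ∃ b ∈ B, ∃ c ∈ A, c ∉ B ∧ G.Adj b c

variable {G}

theorem conn_iff (A : Finset V) : (G.induce (A : Set V)).Connected ↔ Conn G A := by
  constructor
  · intro h
    have hne : A.Nonempty := by
      obtain ⟨x⟩ := h.nonempty
      exact ⟨x.1, x.2⟩
    refine ⟨hne, ?_⟩
    intro B hB hBne hBA
    obtain ⟨b, hb⟩ := hBne
    obtain ⟨c, hcA, hcB⟩ : ∃ c ∈ A, c ∉ B := by
      by_contra hcon
      push Not at hcon
      exact hBA (Finset.Subset.antisymm hB hcon)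
    obtain ⟨p⟩ := h.preconnected ⟨b, hB hb⟩ ⟨c, hcA⟩
    obtain ⟨d, _, hd1, hd2⟩ := p.exists_boundary_dart {x | x.1 ∈ B} hb hcB
    refine ⟨d.fst.1, hd1, d.snd.1, d.snd.2, hd2, ?_⟩
    exact d.adj
  · rintro ⟨hne, h⟩
    obtain ⟨a, ha⟩ := hne
    have key : ∀ x (hx : x ∈ A), (G.induce (A : Set V)).Reachable ⟨a, ha⟩ ⟨x, hx⟩ := by
      classical
      set B := A.filter (fun x => ∃ hx : x ∈ A, (G.induce (A : Set V)).Reachable ⟨a, ha⟩ ⟨x, hx⟩)
        with hBdef
      have hBA : B = A := by
        by_contra hne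
        obtain ⟨b, hb, c, hc, hcB, hadj⟩ := h B (Finset.filter_subset _ _)
          ⟨a, by rw [hBdef, Finset.mem_filter]; exact ⟨ha, ha, SimpleGraph.Reachable.refl _⟩⟩ hne
        rw [hBdef, Finset.mem_filter] at hb
        obtain ⟨hbA, hbA', hr⟩ := hb
        apply hcB
        rw [hBdef, Finset.mem_filter]
        refine ⟨hc, hc, hr.trans ?_⟩
        apply SimpleGraph.Adj.reachable
        exact hadj
      intro x hx
      have hxB : x ∈ B := by rw [hBA]; exact hx
      rw [hBdef, Finset.mem_filter] at hxB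
      obtain ⟨_, _, h3⟩ := hxB
      exact h3
    have : Nonempty ((A : Set V) : Type _) := ⟨⟨a, ha⟩⟩
    refine ⟨?_⟩
    intro x y
    exact (key x.1 x.2).symm.trans (key y.1 y.2)

omit [DecidableEq V] in
theorem conn_singleton (a : V) : Conn G {a} := by
  refine ⟨Finset.singleton_nonempty a, ?_⟩
  intro B hB hne hBA
  exact absurd ((Finset.subset_singleton_iff.1 hB).resolve_left hne.ne_empty) hBA

theorem conn_union {A B : Finset V} (hA : Conn G A) (hB : Conn G B)
    (h : ∃ a ∈ A, ∃ b ∈ B, a = b ∨ G.Adj a b) : Conn G (A ∪ B) := by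
  refine ⟨hA.1.mono Finset.subset_union_left, ?_⟩
  intro C hC hCne hCU
  by_cases h1 : (C ∩ A).Nonempty ∧ C ∩ A ≠ A
  · obtain ⟨b, hb, c, hc, hcn, hadj⟩ := hA.2 (C ∩ A) Finset.inter_subset_right h1.1 h1.2
    rw [Finset.mem_inter] at hb hcn
    exact ⟨b, hb.1, c, Finset.mem_union_left _ hc, fun hcC => hcn ⟨hcC, hc⟩, hadj⟩
  by_cases h2 : (C ∩ B).Nonempty ∧ C ∩ B ≠ B
  · obtain ⟨b, hb, c, hc, hcn, hadj⟩ := hB.2 (C ∩ B) Finset.inter_subset_right h2.1 h2.2
    rw [Finset.mem_inter] at hb hcn
    exact ⟨b, hb.1, c, Finset.mem_union_right _ hc, fun hcC => hcn ⟨hcC, hc⟩, hadj⟩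
  rw [not_and_or, Finset.not_nonempty_iff_eq_empty, not_not] at h1 h2
  obtain ⟨a, ha, b, hb, hab⟩ := h
  rcases h1 with h1 | h1
  · have haC : a ∉ C := fun haC => by
      have : a ∈ C ∩ A := Finset.mem_inter.2 ⟨haC, ha⟩
      rw [h1] at this; simp at this
    rcases h2 with h2 | h2
    · exfalso
      obtain ⟨x, hx⟩ := hCne
      rcases Finset.mem_union.1 (hC hx) with hxA | hxB
      · have : x ∈ C ∩ A := Finset.mem_inter.2 ⟨hx, hxA⟩
        rw [h1] at this; simp at this
      · have : x ∈ C ∩ B := Finset.mem_inter.2 ⟨hx, hxB⟩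
        rw [h2] at this; simp at this
    · have hbC : b ∈ C := Finset.inter_eq_right.1 h2 hb
      rcases hab with rfl | hab
      · exact absurd hbC haC
      · exact ⟨b, hbC, a, Finset.mem_union_left _ ha, haC, hab.symm⟩
  · have haC : a ∈ C := Finset.inter_eq_right.1 h1 ha
    rcases h2 with h2 | h2
    · have hbC : b ∉ C := fun hbC => by
        have : b ∈ C ∩ B := Finset.mem_inter.2 ⟨hbC, hb⟩
        rw [h2] at this; simp at this
      rcases hab with rfl | hab
      · exact absurd haC hbC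
      · exact ⟨a, haC, b, Finset.mem_union_right _ hb, hbC, hab⟩
    · exfalso
      apply hCU
      apply Finset.Subset.antisymm hC
      exact Finset.union_subset (Finset.inter_eq_right.1 h1) (Finset.inter_eq_right.1 h2)

/-- The connected component of `d` inside the set `S`. -/
theorem exists_comp (S : Finset V) {d : V} (hd : d ∈ S) :
    ∃ K ⊆ S, d ∈ K ∧ Conn G K ∧ ∀ x ∈ S, x ∉ K → ∀ y ∈ K, ¬ G.Adj y x := by
  classical
  obtain ⟨K, hK, hmax⟩ := Finset.exists_max_image
    (S.powerset.filter (fun K => d ∈ K ∧ Conn G K)) (fun K => K.card)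
    ⟨{d}, by
      rw [Finset.mem_filter, Finset.mem_powerset]
      exact ⟨Finset.singleton_subset_iff.2 hd, Finset.mem_singleton_self d, conn_singleton d⟩⟩
  rw [Finset.mem_filter, Finset.mem_powerset] at hK
  refine ⟨K, hK.1, hK.2.1, hK.2.2, ?_⟩
  intro x hx hxK y hy hadj
  have hc : Conn G (K ∪ {x}) :=
    conn_union hK.2.2 (conn_singleton x) ⟨y, hy, x, Finset.mem_singleton_self x, Or.inr hadj⟩
  have := hmax (K ∪ {x}) (by
    rw [Finset.mem_filter, Finset.mem_powerset]
    exact ⟨Finset.union_subset hK.1 (Finset.singleton_subset_iff.2 hx),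
      Finset.mem_union_left _ hK.2.1, hc⟩)
  rw [Finset.card_union_of_disjoint (Finset.disjoint_singleton_right.2 hxK)] at this
  simp at this

/-- A connected set of at least two vertices, each with at most four neighbours in the set, has a
balanced partition into two connected parts. -/
theorem exists_cut {A : Finset V} (hA : Conn G A) (hn : 2 ≤ A.card)
    (hdeg : ∀ c ∈ A, ∀ N ⊆ A, (∀ x ∈ N, G.Adj c x) → N.card ≤ 4) :
    ∃ K ⊆ A, Conn G K ∧ Conn G (A \ K) ∧ A.card ≤ 4 * K.card + 1 ∧
      A.card ≤ 4 * (A \ K).card + 1 := by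
  classical
  obtain ⟨K, hK, hmin⟩ := Finset.exists_min_image
    (A.powerset.filter (fun K => Conn G K ∧ (K = A ∨ Conn G (A \ K)) ∧ A.card ≤ 4 * K.card + 1))
    (fun K => K.card)
    ⟨A, by
      rw [Finset.mem_filter, Finset.mem_powerset]
      exact ⟨Finset.Subset.refl _, hA, Or.inl rfl, by omega⟩⟩
  rw [Finset.mem_filter, Finset.mem_powerset] at hK
  obtain ⟨hKA, hKc, hKor, hKcard⟩ := hK
  -- the attachment vertex
  obtain ⟨c, hcK, hc⟩ : ∃ c ∈ K, K = A ∨ (Conn G (A \ K) ∧ ∃ c' ∈ A \ K, G.Adj c c') := by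
    rcases hKor with h | h
    · obtain ⟨c, hc⟩ := hKc.1
      exact ⟨c, hc, Or.inl h⟩
    · have hne : K ≠ A := by
        rintro rfl
        have := h.1
        simp at this
      obtain ⟨b, hb, c, hc, hcK, hadj⟩ := hA.2 K hKA hKc.1 hne
      exact ⟨b, hb, Or.inr ⟨h, c, Finset.mem_sdiff.2 ⟨hc, hcK⟩, hadj⟩⟩
  have hcomp : ∀ d : V, ∃ L : Finset V, (d ∈ K.erase c → L ⊆ K.erase c ∧ d ∈ L ∧ Conn G L ∧
      ∀ x ∈ K.erase c, x ∉ L → ∀ y ∈ L, ¬ G.Adj y x) := by
    intro d
    by_cases hd : d ∈ K.erase c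
    · obtain ⟨L, h1, h2, h3, h4⟩ := exists_comp (G := G) (K.erase c) hd
      exact ⟨L, fun _ => ⟨h1, h2, h3, h4⟩⟩
    · exact ⟨∅, fun h => absurd h hd⟩
  choose comp hcomp using hcomp
  set N := K.filter (fun x => G.Adj c x) with hN
  have hNe : ∀ d ∈ N, d ∈ K.erase c := by
    intro d hd
    rw [hN, Finset.mem_filter] at hd
    exact Finset.mem_erase.2 ⟨hd.2.ne', hd.1⟩
  -- the components cover `K` without `c`
  have hcover : K.erase c ⊆ N.biUnion comp := by
    by_contra hcon
    rw [Finset.not_subset] at hcon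
    obtain ⟨x0, hx0, hx0'⟩ := hcon
    obtain ⟨b, hb, x, hx, hxB, hadj⟩ := hKc.2 (K.erase c \ N.biUnion comp)
      (Finset.sdiff_subset.trans (Finset.erase_subset _ _))
      ⟨x0, Finset.mem_sdiff.2 ⟨hx0, hx0'⟩⟩ (by
        intro h
        have : c ∈ K.erase c \ N.biUnion comp := by rw [h]; exact hcK
        simp at this)
    rw [Finset.mem_sdiff] at hb hxB
    by_cases hxc : x = c
    · subst hxc
      have hbN : b ∈ N := by
        rw [hN, Finset.mem_filter]
        exact ⟨Finset.mem_of_mem_erase hb.1, hadj.symm⟩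
      exact hb.2 (Finset.mem_biUnion.2 ⟨b, hbN, (hcomp b hb.1).2.1⟩)
    · have hxe : x ∈ K.erase c := Finset.mem_erase.2 ⟨hxc, hx⟩
      have hxU : x ∈ N.biUnion comp := by
        by_contra h
        exact hxB ⟨hxe, h⟩
      obtain ⟨d, hdN, hxd⟩ := Finset.mem_biUnion.1 hxU
      have hbd : b ∉ comp d := fun h => hb.2 (Finset.mem_biUnion.2 ⟨d, hdN, h⟩)
      exact (hcomp d (hNe d hdN)).2.2.2 b hb.1 hbd x hxd hadj.symm
  -- removing a component leaves a connected set
  have hrest : ∀ d ∈ N, Conn G (A \ comp d) := by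
    intro d hd
    obtain ⟨hsub, hdm, hconn, hclosed⟩ := hcomp d (hNe d hd)
    have hcnot : c ∉ comp d := fun h => by
      have := hsub h
      simp at this
    have hcR : c ∈ A \ comp d := Finset.mem_sdiff.2 ⟨hKA hcK, hcnot⟩
    -- no subset without `c` is separated
    have key : ∀ C ⊆ A \ comp d, C.Nonempty → c ∉ C →
        ∃ b ∈ C, ∃ x ∈ A \ comp d, x ∉ C ∧ G.Adj b x := by
      intro C hC hCne hcC
      by_contra hcon
      push Not at hcon
      have hCA : C ⊆ A := hC.trans Finset.sdiff_subset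
      obtain ⟨b, hb, x, hx, hxC, hadj⟩ := hA.2 C hCA hCne (by
        rintro rfl
        exact hcC (hKA hcK))
      have hxd : x ∈ comp d := by
        by_contra h
        exact hcon b hb x (Finset.mem_sdiff.2 ⟨hx, h⟩) hxC hadj
      have hbd : b ∉ comp d := (Finset.mem_sdiff.1 (hC hb)).2
      by_cases hbK : b ∈ K
      · have hbc : b ≠ c := by
          rintro rfl
          exact hcC hb
        exact hclosed b (Finset.mem_erase.2 ⟨hbc, hbK⟩) hbd x hxd hadj.symm
      · rcases hc with hc | ⟨hcc, c', hc', hadj'⟩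
        · rw [hc] at hbK
          exact hbK (hCA hb)
        · have hall : A \ K ⊆ C := by
            by_contra hns
            obtain ⟨y, hy, z, hz, hzn, hyz⟩ := hcc.2 ((A \ K) ∩ C) Finset.inter_subset_left
              ⟨b, Finset.mem_inter.2 ⟨Finset.mem_sdiff.2 ⟨hCA hb, hbK⟩, hb⟩⟩ (by
                intro h
                exact hns (Finset.inter_eq_left.1 h))
            have hzC : z ∉ C := fun h => hzn (Finset.mem_inter.2 ⟨hz, h⟩)
            refine hcon y (Finset.mem_inter.1 hy).2 z ?_ hzC hyz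
            rw [Finset.mem_sdiff] at hz ⊢
            exact ⟨hz.1, fun h => hz.2 (Finset.mem_of_mem_erase (hsub h))⟩
          exact hcon c' (hall hc') c hcR hcC hadj'.symm
    refine ⟨⟨c, hcR⟩, ?_⟩
    intro B hB hBne hBR
    by_cases hcB : c ∈ B
    · -- use the complement
      obtain ⟨b, hb, x, hx, hxn, hadj⟩ := key ((A \ comp d) \ B) Finset.sdiff_subset (by
        rw [Finset.sdiff_nonempty]
        intro h
        exact hBR (Finset.Subset.antisymm hB h)) (by
          intro h
          exact (Finset.mem_sdiff.1 h).2 hcB)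
      rw [Finset.mem_sdiff] at hb
      have hxB : x ∈ B := by
        by_contra h
        exact hxn (Finset.mem_sdiff.2 ⟨hx, h⟩)
      exact ⟨x, hxB, b, hb.1, hb.2, hadj.symm⟩
    · exact key B hB hBne hcB
  -- the components are small
  have hsmall : ∀ d ∈ N, 4 * (comp d).card + 2 ≤ A.card := by
    intro d hd
    by_contra hcon
    obtain ⟨hsub, hdm, hconn, hclosed⟩ := hcomp d (hNe d hd)
    have h1 := hmin (comp d) (by
      rw [Finset.mem_filter, Finset.mem_powerset]
      exact ⟨(hsub.trans (Finset.erase_subset _ _)).trans hKA, hconn, Or.inr (hrest d hd),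
        by omega⟩)
    have h2 := Finset.card_le_card hsub
    rw [Finset.card_erase_of_mem hcK] at h2
    have h3 : 0 < K.card := Finset.card_pos.2 ⟨c, hcK⟩
    omega
  have hcount : 4 * (K.card - 1) ≤ N.card * (A.card - 2) := by
    have h1 : K.card - 1 ≤ ∑ d ∈ N, (comp d).card := by
      rw [← Finset.card_erase_of_mem hcK]
      exact (Finset.card_le_card hcover).trans Finset.card_biUnion_le
    calc 4 * (K.card - 1) ≤ 4 * ∑ d ∈ N, (comp d).card := by omega
      _ = ∑ d ∈ N, 4 * (comp d).card := by rw [Finset.mul_sum]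
      _ ≤ ∑ _d ∈ N, (A.card - 2) := Finset.sum_le_sum (fun d hd => by
          have := hsmall d hd
          omega)
      _ = N.card * (A.card - 2) := by rw [Finset.sum_const, smul_eq_mul]
  have hNA : N ⊆ A := (Finset.filter_subset _ _).trans hKA
  have hNadj : ∀ x ∈ N, G.Adj c x := fun x hx => (Finset.mem_filter.1 hx).2
  have hKpos : 0 < K.card := Finset.card_pos.2 ⟨c, hcK⟩
  rcases hc with hc | ⟨hcc, c', hc', hadj'⟩
  · exfalso
    have h4 := hdeg c (hKA hcK) N hNA hNadj
    rw [hc] at hcount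
    have h5 : N.card * (A.card - 2) ≤ 4 * (A.card - 2) := Nat.mul_le_mul_right _ h4
    omega
  · have h4 := hdeg c (hKA hcK) (insert c' N) (by
      rw [Finset.insert_subset_iff]
      exact ⟨(Finset.mem_sdiff.1 hc').1, hNA⟩) (by
        intro x hx
        rcases Finset.mem_insert.1 hx with rfl | hx
        · exact hadj'
        · exact hNadj x hx)
    rw [Finset.card_insert_of_notMem (by
      intro h
      rw [hN, Finset.mem_filter] at h
      exact (Finset.mem_sdiff.1 hc').2 h.1)] at h4
    have h5 : N.card * (A.card - 2) ≤ 3 * (A.card - 2) := Nat.mul_le_mul_right _ (by omega)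
    refine ⟨K, hKA, hKc, hcc, hKcard, ?_⟩
    rw [Finset.card_sdiff_of_subset hKA]
    have h6 := Finset.card_le_card hKA
    omega

end Pool.Agent.R111.Klarner
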