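import Mathlib

/-!
# Klarner's constant: definitions

Fixed polyominoes, their number `t n`, and the explicit sequence of rational numbers which is
shown to decrease to Klarner's constant.
-/

set_option autoImplicit false

namespace Pool.Agent.R111.Klarner

/-- The adjacency graph of the cells of the square lattice: two cells are adjacent when they share
an edge. -/
def cellGraph : SimpleGraph (ℤ × ℤ) where
  Adj p q := (p.1 = q.1 ∧ |p.2 - q.2| = 1) ∨ (p.2 = q.2 ∧ |p.1 - q.1| = 1)
  symm := ⟨by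
    rintro p q (⟨h1, h2⟩ | ⟨h1, h2⟩)
    · exact Or.inl ⟨h1.symm, by rw [abs_sub_comm]; exact h2⟩
    · exact Or.inr ⟨h1.symm, by rw [abs_sub_comm]; exact h2⟩⟩
  loopless := ⟨by
    rintro p (⟨_, h⟩ | ⟨_, h⟩) <;> simp at h⟩

/-- An `n`-omino: a set of `n` cells which is connected under edge adjacency. -/
def IsOmino (n : ℕ) (A : Finset (ℤ × ℤ)) : Prop :=
  A.card = n ∧ (cellGraph.induce (A : Set (ℤ × ℤ))).Connected

/-- The translate of the set of cells `A` by the vector `v`. -/
def shift (v : ℤ × ℤ) (A : Finset (ℤ × ℤ)) : Finset (ℤ × ℤ) := A.image (fun p => p + v)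

theorem mem_shift {v p : ℤ × ℤ} {A : Finset (ℤ × ℤ)} : p ∈ shift v A ↔ p - v ∈ A := by
  unfold shift
  rw [Finset.mem_image]
  constructor
  · rintro ⟨a, ha, rfl⟩
    simpa using ha
  · intro h
    exact ⟨p - v, h, by simp⟩

theorem shift_shift (v w : ℤ × ℤ) (A : Finset (ℤ × ℤ)) : shift v (shift w A) = shift (w + v) A := by
  ext p
  rw [mem_shift, mem_shift, mem_shift]
  congr! 1
  abel

theorem shift_zero (A : Finset (ℤ × ℤ)) : shift 0 A = A := by
  ext p; rw [mem_shift]; simp

/-- Two sets of cells are equivalent when one is a translate of the other. -/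
def transSetoid : Setoid (Finset (ℤ × ℤ)) where
  r A B := ∃ v : ℤ × ℤ, B = shift v A
  iseqv := {
    refl := fun A => ⟨0, (shift_zero A).symm⟩
    symm := by
      rintro A B ⟨v, rfl⟩
      exact ⟨-v, by rw [shift_shift]; simp [shift_zero]⟩
    trans := by
      rintro A B C ⟨v, rfl⟩ ⟨w, rfl⟩
      exact ⟨v + w, by rw [shift_shift]⟩ }

/-- The number of fixed `n`-ominoes, that is, of translation classes of `n`-ominoes. -/
noncomputable def t (n : ℕ) : ℕ := ((Quotient.mk transSetoid) '' {A | IsOmino n A}).ncard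

/-- For a sequence `a`, the pair `(n, k)` is certified when for some `1 ≤ N ≤ n + 1` the finitely
many inequalities `256 m³ a(m) (2 ^ n) ^ m ≤ k ^ m`, `N ≤ m ≤ 4 N`, hold. -/
def Cert (a : ℕ → ℕ) (n k : ℕ) : Prop :=
  ∃ N, 1 ≤ N ∧ N ≤ n + 1 ∧ ∀ m, N ≤ m → m ≤ 4 * N → 256 * m ^ 3 * a m * (2 ^ n) ^ m ≤ k ^ m

/-- The least `k` such that the pair `(n, k)` is certified. -/
noncomputable def best (a : ℕ → ℕ) (n : ℕ) : ℕ := sInf {k | Cert a n k}

/-- The rational number `(best a n + 1) / 2 ^ n`. -/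
noncomputable def beta (a : ℕ → ℕ) (n : ℕ) : ℚ := ((best a n + 1 : ℕ) : ℚ) / ((2 ^ n : ℕ) : ℚ)

end Pool.Agent.R111.Klarner
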