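import Pool.Agent.R111.Klarner.Omino

/-!
# Growth constants from supermultiplicativity and balanced cuts

A sequence of natural numbers which is supermultiplicative and satisfies the balanced cut
inequality has a growth constant, and finitely many of its terms give upper bounds on the growth
constant which converge to it.
-/

set_option autoImplicit false

namespace Pool.Agent.R111.Klarner

open Finset Filter Topology

/-- The three properties of the number of fixed polyominoes which are used. -/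
structure Growth (a : ℕ → ℕ) : Prop where
  one : 1 ≤ a 1
  mul : ∀ m n : ℕ, 1 ≤ m → 1 ≤ n → a m * a n ≤ a (m + n)
  cut : ∀ n : ℕ, 2 ≤ n → a n ≤ ∑ m ∈ I n, 4 * m * (n - m) * a m * a (n - m)

theorem growth_t : Growth t := ⟨t_one, fun _ _ h1 h2 => t_mul_le h1 h2, fun _ h => t_cut h⟩

variable {a : ℕ → ℕ}

theorem Growth.pos (h : Growth a) : ∀ n, 1 ≤ n → 1 ≤ a n := by
  intro n hn
  induction n, hn using Nat.le_induction with
  | base => exact h.one
  | succ n hn ih =>
    have := h.mul n 1 hn le_rfl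
    have h1 := h.one
    nlinarith

/-- The number of `n`-ominoes weighted by a polynomial factor. -/
def wt (a : ℕ → ℕ) (n : ℕ) : ℕ := 256 * n ^ 3 * a n

theorem split_ineq {i j : ℕ} (hi : 1 ≤ i) (hj : 1 ≤ j) (h1 : j ≤ 3 * i + 1) (h2 : i ≤ 3 * j + 1) :
    (i + j) * (256 * (i + j) ^ 3 * (4 * i * j)) ≤ (256 * i ^ 3) * (256 * j ^ 3) := by
  have key : (i + j) ^ 2 ≤ 8 * i * j := by
    zify at *
    nlinarith [mul_nonneg (sub_nonneg.2 h1) (sub_nonneg.2 h2), mul_nonneg (sub_nonneg.2 hi)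
      (sub_nonneg.2 hj)]
  have key2 : (i + j) ^ 4 ≤ 64 * (i ^ 2 * j ^ 2) := by
    calc (i + j) ^ 4 = ((i + j) ^ 2) ^ 2 := by ring
      _ ≤ (8 * i * j) ^ 2 := Nat.pow_le_pow_left key 2
      _ = 64 * (i ^ 2 * j ^ 2) := by ring
  calc (i + j) * (256 * (i + j) ^ 3 * (4 * i * j)) = (i + j) ^ 4 * (1024 * i * j) := by ring
    _ ≤ 64 * (i ^ 2 * j ^ 2) * (1024 * i * j) := Nat.mul_le_mul_right _ key2
    _ = (256 * i ^ 3) * (256 * j ^ 3) := by ring

theorem mem_I {n m : ℕ} : m ∈ I n ↔ m < n ∧ n ≤ 4 * m + 1 ∧ n ≤ 4 * (n - m) + 1 := by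
  unfold I
  rw [Finset.mem_filter, Finset.mem_range]

theorem Growth.wt_cut (h : Growth a) {n : ℕ} (hn : 2 ≤ n) :
    n * wt a n ≤ ∑ m ∈ I n, wt a m * wt a (n - m) := by
  calc n * wt a n = n * (256 * n ^ 3) * a n := by unfold wt; ring
    _ ≤ n * (256 * n ^ 3) * ∑ m ∈ I n, 4 * m * (n - m) * a m * a (n - m) :=
      Nat.mul_le_mul_left _ (h.cut n hn)
    _ = ∑ m ∈ I n, (n * (256 * n ^ 3 * (4 * m * (n - m)))) * (a m * a (n - m)) := by
      rw [Finset.mul_sum]
      apply Finset.sum_congr rfl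
      intro m _
      ring
    _ ≤ ∑ m ∈ I n, wt a m * wt a (n - m) := by
      apply Finset.sum_le_sum
      intro m hm
      rw [mem_I] at hm
      obtain ⟨j, hj⟩ : ∃ j, n = m + j := ⟨n - m, by omega⟩
      have hj' : n - m = j := by omega
      rw [hj']
      have := split_ineq (i := m) (j := j) (by omega) (by omega) (by omega) (by omega)
      calc n * (256 * n ^ 3 * (4 * m * j)) * (a m * a j)
          ≤ ((256 * m ^ 3) * (256 * j ^ 3)) * (a m * a j) := by
            apply Nat.mul_le_mul_right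
            rw [hj]
            exact this
        _ = wt a m * wt a j := by unfold wt; ring

theorem Growth.propagate (h : Growth a) {N D k : ℕ} (hN : 1 ≤ N)
    (hc : ∀ m, N ≤ m → m ≤ 4 * N → wt a m * D ^ m ≤ k ^ m) :
    ∀ m, N ≤ m → wt a m * D ^ m ≤ k ^ m := by
  intro n
  induction n using Nat.strong_induction_on with
  | _ n ih =>
    intro hn
    by_cases h4 : n ≤ 4 * N
    · exact hc n hn h4
    push Not at h4
    have hcut := h.wt_cut (n := n) (by omega)
    have h1 : n * (wt a n * D ^ n) ≤ n * k ^ n := by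
      calc n * (wt a n * D ^ n) = (n * wt a n) * D ^ n := by ring
        _ ≤ (∑ m ∈ I n, wt a m * wt a (n - m)) * D ^ n := Nat.mul_le_mul_right _ hcut
        _ = ∑ m ∈ I n, (wt a m * D ^ m) * (wt a (n - m) * D ^ (n - m)) := by
          rw [Finset.sum_mul]
          apply Finset.sum_congr rfl
          intro m hm
          rw [mem_I] at hm
          have : D ^ n = D ^ m * D ^ (n - m) := by
            rw [← pow_add]; congr 1; omega
          rw [this]; ring
        _ ≤ ∑ _m ∈ I n, k ^ n := by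
          apply Finset.sum_le_sum
          intro m hm
          rw [mem_I] at hm
          have e : k ^ n = k ^ m * k ^ (n - m) := by
            rw [← pow_add]; congr 1; omega
          rw [e]
          exact Nat.mul_le_mul (ih m (by omega) (by omega)) (ih (n - m) (by omega) (by omega))
        _ = (I n).card * k ^ n := by rw [Finset.sum_const, smul_eq_mul]
        _ ≤ n * k ^ n := by
          apply Nat.mul_le_mul_right
          unfold I
          exact (Finset.card_filter_le _ _).trans (by simp)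
    exact Nat.le_of_mul_le_mul_left h1 (by omega)

theorem Growth.exists_bound (h : Growth a) : ∃ K : ℕ, 1 ≤ K ∧ ∀ n, 1 ≤ n → a n ≤ K ^ n := by
  refine ⟨wt a 1 + wt a 2 + wt a 3 + wt a 4, ?_, ?_⟩
  · have := h.one
    unfold wt; omega
  · intro n hn
    have hK : 1 ≤ wt a 1 + wt a 2 + wt a 3 + wt a 4 := by
      have := h.one
      unfold wt; omega
    have h1 := h.propagate (N := 1) (D := 1) (k := wt a 1 + wt a 2 + wt a 3 + wt a 4) le_rfl (by
      intro m h1 h4
      have h2 : wt a m ≤ wt a 1 + wt a 2 + wt a 3 + wt a 4 := by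
        interval_cases m <;> omega
      rw [one_pow, mul_one]
      exact h2.trans (Nat.le_self_pow (by omega) _)) n hn
    rw [one_pow, mul_one] at h1
    refine le_trans ?_ h1
    unfold wt
    have : 1 ≤ 256 * n ^ 3 := by
      have : 0 < n ^ 3 := by positivity
      omega
    nlinarith

/-- The growth constant exists. -/
theorem Growth.exists_lim (h : Growth a) : ∃ lam : ℝ, 0 < lam ∧
    Tendsto (fun n : ℕ => (a n : ℝ) ^ (1 / (n : ℝ))) atTop (𝓝 lam) := by
  set u : ℕ → ℝ := fun n => if n = 0 then 0 else - Real.log (a n) with hu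
  have hpos : ∀ n, 1 ≤ n → (0 : ℝ) < a n := fun n hn => by exact_mod_cast h.pos n hn
  have hsub : Subadditive u := by
    intro m n
    rcases Nat.eq_zero_or_pos m with rfl | hm
    · simp [hu]
    rcases Nat.eq_zero_or_pos n with rfl | hn
    · simp [hu]
    simp only [hu]
    rw [if_neg (by omega), if_neg (by omega), if_neg (by omega)]
    have h1 : Real.log ((a m : ℝ) * a n) ≤ Real.log (a (m + n)) := by
      apply Real.log_le_log (mul_pos (hpos m hm) (hpos n hn))
      exact_mod_cast h.mul m n hm hn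
    rw [Real.log_mul (hpos m hm).ne' (hpos n hn).ne'] at h1
    linarith
  obtain ⟨K, hK, hbound⟩ := h.exists_bound
  have hKR : (1 : ℝ) ≤ K := by exact_mod_cast hK
  have hbdd : BddBelow (Set.range fun n => u n / n) := by
    refine ⟨- Real.log K, ?_⟩
    rintro _ ⟨n, rfl⟩
    simp only [hu]
    rcases Nat.eq_zero_or_pos n with rfl | hn
    · simp only [if_true, zero_div]
      have := Real.log_nonneg hKR
      linarith
    · rw [if_neg (by omega), le_div_iff₀ (by exact_mod_cast hn)]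
      have h1 : Real.log (a n) ≤ Real.log ((K : ℝ) ^ n) := by
        apply Real.log_le_log (hpos n hn)
        exact_mod_cast hbound n hn
      rw [Real.log_pow] at h1
      linarith
  have hlim := hsub.tendsto_lim hbdd
  refine ⟨Real.exp (- hsub.lim), Real.exp_pos _, ?_⟩
  have h2 : Tendsto (fun n : ℕ => Real.exp (-(u n / n))) atTop (𝓝 (Real.exp (- hsub.lim))) :=
    (Real.continuous_exp.tendsto _).comp hlim.neg
  refine h2.congr' ?_
  filter_upwards [eventually_ge_atTop 1] with n hn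
  rw [Real.rpow_def_of_pos (hpos n hn)]
  congr 1
  simp only [hu]
  rw [if_neg (by omega)]
  ring

theorem cert_nonempty (a : ℕ → ℕ) (n : ℕ) : {k | Cert a n k}.Nonempty := by
  refine ⟨∑ m ∈ Finset.range 5, 256 * m ^ 3 * a m * (2 ^ n) ^ m, 1, le_rfl, by omega, ?_⟩
  intro m h1 h4
  have h2 : 256 * m ^ 3 * a m * (2 ^ n) ^ m ≤
      ∑ m ∈ Finset.range 5, 256 * m ^ 3 * a m * (2 ^ n) ^ m :=
    Finset.single_le_sum (f := fun m => 256 * m ^ 3 * a m * (2 ^ n) ^ m)
      (fun _ _ => Nat.zero_le _) (Finset.mem_range.2 (by omega))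
  exact h2.trans (Nat.le_self_pow (by omega) _)

theorem best_spec (a : ℕ → ℕ) (n : ℕ) : Cert a n (best a n) := Nat.sInf_mem (cert_nonempty a n)

theorem best_le {a : ℕ → ℕ} {n k : ℕ} (h : Cert a n k) : best a n ≤ k := Nat.sInf_le h

theorem best_succ (a : ℕ → ℕ) (n : ℕ) : best a (n + 1) ≤ 2 * best a n := by
  apply best_le
  obtain ⟨N, h1, h2, h3⟩ := best_spec a n
  refine ⟨N, h1, by omega, ?_⟩
  intro m hm hm4
  have := h3 m hm hm4
  calc 256 * m ^ 3 * a m * (2 ^ (n + 1)) ^ m = 2 ^ m * (256 * m ^ 3 * a m * (2 ^ n) ^ m) := by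
        rw [pow_succ 2 n, mul_pow]; ring
    _ ≤ 2 ^ m * (best a n) ^ m := Nat.mul_le_mul_left _ this
    _ = (2 * best a n) ^ m := by rw [mul_pow]

theorem beta_strictAnti (a : ℕ → ℕ) : StrictAnti (beta a) := by
  apply strictAnti_nat_of_succ_lt
  intro n
  unfold beta
  have h := best_succ a n
  have h2 : (0 : ℚ) < 2 ^ n := by positivity
  rw [div_lt_div_iff₀ (by positivity) (by positivity)]
  push_cast
  have h3 : (best a (n + 1) : ℚ) ≤ 2 * best a n := by exact_mod_cast h
  rw [pow_succ]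
  nlinarith

theorem Growth.le_of_cert (h : Growth a) {lam : ℝ}
    (hlim : Tendsto (fun n : ℕ => (a n : ℝ) ^ (1 / (n : ℝ))) atTop (𝓝 lam)) {n k : ℕ}
    (hc : Cert a n k) : lam ≤ (k : ℝ) / 2 ^ n := by
  obtain ⟨N, h1, _, h3⟩ := hc
  have hprop := h.propagate (D := 2 ^ n) (k := k) h1 h3
  apply le_of_tendsto hlim
  filter_upwards [eventually_ge_atTop N] with m hm
  have hm1 : 1 ≤ m := h1.trans hm
  have h4 := hprop m hm
  have h5 : (a m : ℝ) ≤ ((k : ℝ) / 2 ^ n) ^ m := by
    rw [div_pow, le_div_iff₀ (by positivity)]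
    have h6 : a m * (2 ^ n) ^ m ≤ k ^ m := by
      refine le_trans (Nat.mul_le_mul_right _ ?_) h4
      unfold wt
      have : 1 ≤ 256 * m ^ 3 := by
        have : 0 < m ^ 3 := by positivity
        omega
      nlinarith
    exact_mod_cast h6
  calc (a m : ℝ) ^ (1 / (m : ℝ)) ≤ (((k : ℝ) / 2 ^ n) ^ m) ^ (1 / (m : ℝ)) := by
        apply Real.rpow_le_rpow (by positivity) h5 (by positivity)
    _ = (k : ℝ) / 2 ^ n := by
        rw [one_div, Real.pow_rpow_inv_natCast (by positivity) (by omega)]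

theorem tendsto_wt {lam : ℝ}
    (hlim : Tendsto (fun n : ℕ => (a n : ℝ) ^ (1 / (n : ℝ))) atTop (𝓝 lam)) :
    Tendsto (fun n : ℕ => (wt a n : ℝ) ^ (1 / (n : ℝ))) atTop (𝓝 lam) := by
  have h1 : Tendsto (fun n : ℕ => (256 : ℝ) ^ (1 / (n : ℝ))) atTop (𝓝 1) := by
    have h2 : Tendsto (fun n : ℕ => 1 / (n : ℝ)) atTop (𝓝 0) := tendsto_one_div_atTop_nhds_zero_nat
    have h3 : Tendsto (fun x : ℝ => (256 : ℝ) ^ x) (𝓝 0) (𝓝 ((256 : ℝ) ^ (0 : ℝ))) :=
      (Real.continuous_const_rpow (by norm_num)).tendsto 0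
    rw [Real.rpow_zero] at h3
    exact h3.comp h2
  have h2 : Tendsto (fun n : ℕ => ((n : ℝ) ^ (1 / (n : ℝ))) ^ 3) atTop (𝓝 1) := by
    have h3 : Tendsto (fun n : ℕ => (n : ℝ) ^ (1 / (n : ℝ))) atTop (𝓝 1) :=
      tendsto_rpow_div.comp tendsto_natCast_atTop_atTop
    simpa using h3.pow 3
  have h3 := (h1.mul h2).mul hlim
  rw [one_mul, one_mul] at h3
  refine h3.congr' ?_
  filter_upwards [eventually_ge_atTop 1] with n hn
  unfold wt
  push_cast
  rw [Real.mul_rpow (by positivity) (by positivity), Real.mul_rpow (by positivity) (by positivity)]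
  congr 2
  rw [← Real.rpow_natCast, ← Real.rpow_natCast, ← Real.rpow_mul (by positivity),
    ← Real.rpow_mul (by positivity)]
  congr 1
  ring

theorem Growth.tendsto_beta (h : Growth a) {lam : ℝ} (hpos : 0 < lam)
    (hlim : Tendsto (fun n : ℕ => (a n : ℝ) ^ (1 / (n : ℝ))) atTop (𝓝 lam)) :
    Tendsto (fun n => (beta a n : ℝ)) atTop (𝓝 lam) := by
  have hlow : ∀ n, lam ≤ (beta a n : ℝ) := by
    intro n
    have h1 := h.le_of_cert hlim (best_spec a n)
    refine h1.trans ?_
    unfold beta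
    push_cast
    gcongr
    linarith
  rw [Metric.tendsto_atTop]
  intro ε hε
  have h1 := tendsto_wt hlim
  have h2 : ∀ᶠ n : ℕ in atTop, (wt a n : ℝ) ^ (1 / (n : ℝ)) < lam + ε / 2 :=
    h1.eventually_lt_const (by linarith)
  obtain ⟨N0, hN0⟩ := eventually_atTop.1 h2
  have h3 : Tendsto (fun n : ℕ => (2 : ℝ) * (1 / 2) ^ n) atTop (𝓝 0) := by
    have := (tendsto_pow_atTop_nhds_zero_of_lt_one (r := (1 / 2 : ℝ)) (by norm_num)
      (by norm_num)).const_mul 2
    simpa using this
  have h4 : ∀ᶠ n : ℕ in atTop, (2 : ℝ) * (1 / 2) ^ n < ε / 2 :=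
    h3.eventually_lt_const (by linarith)
  obtain ⟨N1, hN1⟩ := eventually_atTop.1 h4
  refine ⟨max (max N0 1) N1, ?_⟩
  intro n hn
  have hn0 : max N0 1 ≤ n := (le_max_left _ _).trans hn
  have hn1 : N1 ≤ n := (le_max_right _ _).trans hn
  have hcert : Cert a n ⌈(lam + ε / 2) * 2 ^ n⌉₊ := by
    refine ⟨max N0 1, le_max_right _ _, by omega, ?_⟩
    intro m hm _
    have hm1 : 1 ≤ m := (le_max_right _ _).trans hm
    have h5 := hN0 m ((le_max_left _ _).trans hm)
    have h6 : (wt a m : ℝ) ≤ (lam + ε / 2) ^ m := by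
      have h7 : ((wt a m : ℝ) ^ (1 / (m : ℝ))) ^ m ≤ (lam + ε / 2) ^ m :=
        pow_le_pow_left₀ (by positivity) h5.le m
      rwa [one_div, Real.rpow_inv_natCast_pow (by positivity) (by omega)] at h7
    have h8 : (wt a m : ℝ) * (2 ^ n) ^ m ≤ (⌈(lam + ε / 2) * 2 ^ n⌉₊ : ℝ) ^ m := by
      calc (wt a m : ℝ) * (2 ^ n) ^ m ≤ (lam + ε / 2) ^ m * (2 ^ n) ^ m := by gcongr
        _ = ((lam + ε / 2) * 2 ^ n) ^ m := by rw [mul_pow]
        _ ≤ (⌈(lam + ε / 2) * 2 ^ n⌉₊ : ℝ) ^ m := by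
          apply pow_le_pow_left₀ (by positivity)
          exact Nat.le_ceil _
    have h9 : wt a m * (2 ^ n) ^ m ≤ ⌈(lam + ε / 2) * 2 ^ n⌉₊ ^ m := by exact_mod_cast h8
    exact h9
  have h10 := best_le hcert
  have h11 : (best a n : ℝ) ≤ (lam + ε / 2) * 2 ^ n + 1 := by
    have h12 : (best a n : ℝ) ≤ (⌈(lam + ε / 2) * 2 ^ n⌉₊ : ℝ) := by exact_mod_cast h10
    have h13 := Nat.ceil_lt_add_one (a := (lam + ε / 2) * 2 ^ n) (by positivity)
    linarith
  have h12 : (beta a n : ℝ) ≤ lam + ε / 2 + 2 * (1 / 2) ^ n := by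
    unfold beta
    push_cast
    rw [div_le_iff₀ (by positivity)]
    have h13 : (1 / 2 : ℝ) ^ n * 2 ^ n = 1 := by
      rw [← mul_pow]; norm_num
    nlinarith
  have h13 := hN1 n hn1
  rw [Real.dist_eq, abs_of_nonneg (by linarith [hlow n])]
  linarith

end Pool.Agent.R111.Klarner
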