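import Pool.Agent.R111.Klarner.Conn
import Pool.Agent.R111.Klarner.Defs

/-!
# Fixed polyominoes

Definitions of `n`-ominoes, translations and the number `t n` of fixed `n`-ominoes, and the
two basic inequalities: concatenation `t m * t n ≤ t (m + n)` and the balanced cut inequality.
-/

set_option autoImplicit false

namespace Pool.Agent.R111.Klarner

open Finset

theorem shift_union (v : ℤ × ℤ) (A B : Finset (ℤ × ℤ)) : shift v (A ∪ B) = shift v A ∪ shift v B := by
  unfold shift
  exact Finset.image_union _ _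

theorem card_shift (v : ℤ × ℤ) (A : Finset (ℤ × ℤ)) : (shift v A).card = A.card := by
  unfold shift
  exact Finset.card_image_of_injective _ (fun a b h => by simpa using h)

/-! ### Adjacency and translations -/

theorem adj_iff (p q : ℤ × ℤ) : cellGraph.Adj p q ↔
    (p.1 = q.1 ∧ (q.2 = p.2 + 1 ∨ p.2 = q.2 + 1)) ∨
    (p.2 = q.2 ∧ (q.1 = p.1 + 1 ∨ p.1 = q.1 + 1)) := by
  change ((p.1 = q.1 ∧ |p.2 - q.2| = 1) ∨ (p.2 = q.2 ∧ |p.1 - q.1| = 1)) ↔ _
  rw [abs_eq (by norm_num), abs_eq (by norm_num)]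
  constructor
  · rintro (⟨h1, h2 | h2⟩ | ⟨h1, h2 | h2⟩)
    · left; exact ⟨h1, by omega⟩
    · left; exact ⟨h1, by omega⟩
    · right; exact ⟨h1, by omega⟩
    · right; exact ⟨h1, by omega⟩
  · rintro (⟨h1, h2 | h2⟩ | ⟨h1, h2 | h2⟩)
    · left; exact ⟨h1, by omega⟩
    · left; exact ⟨h1, by omega⟩
    · right; exact ⟨h1, by omega⟩
    · right; exact ⟨h1, by omega⟩

theorem adj_add (p q v : ℤ × ℤ) : cellGraph.Adj (p + v) (q + v) ↔ cellGraph.Adj p q := by
  rw [adj_iff, adj_iff]
  simp only [Prod.fst_add, Prod.snd_add]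
  constructor <;> · intro h; omega

theorem conn_shift {A : Finset (ℤ × ℤ)} (v : ℤ × ℤ) (h : Conn cellGraph A) :
    Conn cellGraph (shift v A) := by
  refine ⟨h.1.image _, ?_⟩
  intro B hB hne hBA
  have h1 : shift (-v) B ⊆ A := by
    intro p hp
    rw [mem_shift] at hp
    have := hB hp
    rw [mem_shift] at this
    simpa using this
  obtain ⟨b, hb, c, hc, hcB, hadj⟩ := h.2 (shift (-v) B) h1 (hne.image _) (by
    rintro rfl
    apply hBA
    rw [shift_shift]
    simp [shift_zero])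
  refine ⟨b + v, ?_, c + v, ?_, ?_, (adj_add _ _ _).2 hadj⟩
  · rw [mem_shift] at hb
    simpa using hb
  · rw [mem_shift]
    simpa using hc
  · intro h
    apply hcB
    rw [mem_shift]
    simpa using h

/-- The four unit vectors. -/
def dirs : Finset (ℤ × ℤ) := {(1, 0), (-1, 0), (0, 1), (0, -1)}

theorem card_dirs : dirs.card = 4 := by decide

theorem adj_dirs {p q : ℤ × ℤ} (h : cellGraph.Adj p q) : q - p ∈ dirs := by
  rw [adj_iff] at h
  obtain ⟨a, b⟩ := p
  obtain ⟨c, d⟩ := q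
  simp only at h
  unfold dirs
  simp only [Prod.mk_sub_mk, Finset.mem_insert, Prod.mk.injEq, Finset.mem_singleton]
  omega

theorem deg_le (c : ℤ × ℤ) (N : Finset (ℤ × ℤ)) (h : ∀ x ∈ N, cellGraph.Adj c x) :
    N.card ≤ 4 := by
  rw [← card_dirs]
  apply Finset.card_le_card_of_injOn (fun x => x - c)
  · intro x hx
    exact adj_dirs (h x hx)
  · intro x _ y _ hxy
    simpa using hxy

/-! ### Normalised polyominoes -/

/-- The set lies in the first quadrant and touches both axes. -/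
def Norm (A : Finset (ℤ × ℤ)) : Prop :=
  (∀ p ∈ A, 0 ≤ p.1 ∧ 0 ≤ p.2) ∧ (∃ p ∈ A, p.1 = 0) ∧ (∃ p ∈ A, p.2 = 0)

theorem norm_unique {A : Finset (ℤ × ℤ)} {v : ℤ × ℤ} (h : Norm A) (h' : Norm (shift v A)) :
    v = 0 := by
  obtain ⟨h1, ⟨p, hp, hp0⟩, ⟨q, hq, hq0⟩⟩ := h
  obtain ⟨h1', ⟨p', hp', hp0'⟩, ⟨q', hq', hq0'⟩⟩ := h'
  have a1 := h1' (p + v) (by rw [mem_shift]; simpa using hp)
  have a2 := h1' (q + v) (by rw [mem_shift]; simpa using hq)
  rw [mem_shift] at hp' hq'
  have a3 := h1 _ hp'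
  have a4 := h1 _ hq'
  simp only [Prod.fst_add, Prod.snd_add, Prod.fst_sub, Prod.snd_sub] at a1 a2 a3 a4
  ext
  · simp only [Prod.fst_zero]; omega
  · simp only [Prod.snd_zero]; omega

theorem exists_norm {A : Finset (ℤ × ℤ)} (h : A.Nonempty) : ∃ v, Norm (shift v A) := by
  obtain ⟨p, hp, hpm⟩ := Finset.exists_min_image A (fun p => p.1) h
  obtain ⟨q, hq, hqm⟩ := Finset.exists_min_image A (fun p => p.2) h
  refine ⟨(-p.1, -q.2), ?_, ?_, ?_⟩
  · intro x hx
    rw [mem_shift] at hx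
    have h1 := hpm _ hx
    have h2 := hqm _ hx
    simp only [Prod.fst_sub, Prod.snd_sub] at h1 h2
    omega
  · exact ⟨p + (-p.1, -q.2), by rw [mem_shift]; simpa using hp, by simp⟩
  · exact ⟨q + (-p.1, -q.2), by rw [mem_shift]; simpa using hq, by simp⟩

theorem extent_fst {n : ℕ} {A : Finset (ℤ × ℤ)} (hc : Conn cellGraph A) (hn : A.card = n)
    (hN : Norm A) : ∀ p ∈ A, p.1 < n ∧ p.2 < n := by
  obtain ⟨h1, ⟨p0, hp0, hp00⟩, ⟨q0, hq0, hq00⟩⟩ := hN
  intro c hc'
  constructor
  · by_contra hcon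
    push Not at hcon
    -- every column from `0` to `c.1` is hit
    have hcol : ∀ j : ℤ, 0 ≤ j → j ≤ c.1 → ∃ p ∈ A, p.1 = j := by
      intro j hj hjc
      rcases eq_or_lt_of_le hj with h0 | h0
      · exact ⟨p0, hp0, by omega⟩
      · obtain ⟨b, hb, x, hx, hxB, hadj⟩ := hc.2 (A.filter (fun p => p.1 < j))
          (Finset.filter_subset _ _) ⟨p0, Finset.mem_filter.2 ⟨hp0, by omega⟩⟩ (by
            intro h
            have : c ∈ A.filter (fun p => p.1 < j) := by rw [h]; exact hc'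
            rw [Finset.mem_filter] at this
            omega)
        rw [Finset.mem_filter] at hb hxB
        rw [adj_iff] at hadj
        have hxj : ¬ x.1 < j := fun h => hxB ⟨hx, h⟩
        exact ⟨x, hx, by omega⟩
    have hcard : (Finset.Icc (0 : ℤ) c.1).card ≤ A.card := by
      have : Finset.Icc (0 : ℤ) c.1 ⊆ A.image (fun p => p.1) := by
        intro j hj
        rw [Finset.mem_Icc] at hj
        obtain ⟨p, hp, hpj⟩ := hcol j hj.1 hj.2
        exact Finset.mem_image.2 ⟨p, hp, hpj⟩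
      exact (Finset.card_le_card this).trans Finset.card_image_le
    rw [Int.card_Icc, hn] at hcard
    have := (h1 c hc').1
    omega
  · by_contra hcon
    push Not at hcon
    have hcol : ∀ j : ℤ, 0 ≤ j → j ≤ c.2 → ∃ p ∈ A, p.2 = j := by
      intro j hj hjc
      rcases eq_or_lt_of_le hj with h0 | h0
      · exact ⟨q0, hq0, by omega⟩
      · obtain ⟨b, hb, x, hx, hxB, hadj⟩ := hc.2 (A.filter (fun p => p.2 < j))
          (Finset.filter_subset _ _) ⟨q0, Finset.mem_filter.2 ⟨hq0, by omega⟩⟩ (by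
            intro h
            have : c ∈ A.filter (fun p => p.2 < j) := by rw [h]; exact hc'
            rw [Finset.mem_filter] at this
            omega)
        rw [Finset.mem_filter] at hb hxB
        rw [adj_iff] at hadj
        have hxj : ¬ x.2 < j := fun h => hxB ⟨hx, h⟩
        exact ⟨x, hx, by omega⟩
    have hcard : (Finset.Icc (0 : ℤ) c.2).card ≤ A.card := by
      have : Finset.Icc (0 : ℤ) c.2 ⊆ A.image (fun p => p.2) := by
        intro j hj
        rw [Finset.mem_Icc] at hj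
        obtain ⟨p, hp, hpj⟩ := hcol j hj.1 hj.2
        exact Finset.mem_image.2 ⟨p, hp, hpj⟩
      exact (Finset.card_le_card this).trans Finset.card_image_le
    rw [Int.card_Icc, hn] at hcard
    have := (h1 c hc').2
    omega

open Classical in
/-- The finite set of normalised `n`-ominoes. -/
noncomputable def F (n : ℕ) : Finset (Finset (ℤ × ℤ)) :=
  ((Finset.Ico (0 : ℤ) n ×ˢ Finset.Ico (0 : ℤ) n).powerset).filter
    (fun A => A.card = n ∧ Conn cellGraph A ∧ Norm A)

theorem mem_F {n : ℕ} {A : Finset (ℤ × ℤ)} :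
    A ∈ F n ↔ A.card = n ∧ Conn cellGraph A ∧ Norm A := by
  simp only [F, Finset.mem_filter, Finset.mem_powerset]
  constructor
  · exact fun h => h.2
  · intro h
    refine ⟨?_, h⟩
    intro p hp
    rw [Finset.mem_product, Finset.mem_Ico, Finset.mem_Ico]
    have h1 := extent_fst h.2.1 h.1 h.2.2 p hp
    have h2 := h.2.2.1 p hp
    exact ⟨⟨h2.1, h1.1⟩, ⟨h2.2, h1.2⟩⟩

theorem t_eq (n : ℕ) : t n = (F n).card := by
  unfold t
  have h1 : (Quotient.mk transSetoid) '' {A | IsOmino n A} =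
      (Quotient.mk transSetoid) '' (F n : Set (Finset (ℤ × ℤ))) := by
    ext c
    constructor
    · rintro ⟨A, hA, rfl⟩
      have hc : Conn cellGraph A := (conn_iff A).1 hA.2
      obtain ⟨v, hv⟩ := exists_norm hc.1
      refine ⟨shift v A, ?_, ?_⟩
      · rw [Finset.mem_coe, mem_F]
        exact ⟨by rw [card_shift]; exact hA.1, conn_shift v hc, hv⟩
      · apply Eq.symm
        apply Quotient.sound
        exact ⟨v, rfl⟩
    · rintro ⟨A, hA, rfl⟩
      rw [Finset.mem_coe, mem_F] at hA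
      exact ⟨A, ⟨hA.1, (conn_iff A).2 hA.2.1⟩, rfl⟩
  rw [h1, Set.InjOn.ncard_image, Set.ncard_coe_finset]
  intro A hA B hB hAB
  rw [Finset.mem_coe, mem_F] at hA hB
  obtain ⟨v, hv⟩ := Quotient.exact hAB
  rw [hv] at hB
  have := norm_unique hA.2.2 hB.2.2
  rw [this, shift_zero] at hv
  exact hv.symm

open Classical in
/-- A translate touching both axes from inside the first quadrant. -/
noncomputable def nrm (A : Finset (ℤ × ℤ)) : Finset (ℤ × ℤ) :=
  if h : ∃ v, Norm (shift v A) then shift h.choose A else ∅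

theorem nrm_shift {A : Finset (ℤ × ℤ)} {v : ℤ × ℤ} (h : Norm (shift v A)) : nrm A = shift v A := by
  have hex : ∃ v, Norm (shift v A) := ⟨v, h⟩
  unfold nrm
  rw [dif_pos hex]
  have h2 := hex.choose_spec
  set w := hex.choose
  have h3 : shift w A = shift (w - v) (shift v A) := by
    rw [shift_shift]; simp
  rw [h3] at h2
  have h4 := norm_unique h h2
  rw [h3, h4, shift_zero]

/-! ### The cut inequality -/

/-- The admissible sizes of the first part in a balanced cut. -/
def I (n : ℕ) : Finset ℕ := (Finset.range n).filter (fun m => n ≤ 4 * m + 1 ∧ n ≤ 4 * (n - m) + 1)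

theorem F_subset {n : ℕ} (hn : 2 ≤ n) : F n ⊆ (I n).biUnion fun m => (F m).biUnion fun X =>
    (F (n - m)).biUnion fun Y => X.biUnion fun p => Y.biUnion fun q =>
      dirs.image (fun e => nrm (X ∪ shift (p + e - q) Y)) := by
  intro A hA
  rw [mem_F] at hA
  obtain ⟨hcard, hconn, hnorm⟩ := hA
  obtain ⟨K, hKA, hK, hR, h1, h2⟩ := exists_cut hconn (by omega)
    (fun c _ N _ hN => deg_le c N hN)
  have hKpos : 0 < K.card := Finset.card_pos.2 hK.1
  have hRpos : 0 < (A \ K).card := Finset.card_pos.2 hR.1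
  have hsum : (A \ K).card + K.card = n := by
    rw [Finset.card_sdiff_add_card_eq_card hKA, hcard]
  obtain ⟨b, hb, c, hcA, hcK, hadj⟩ := hconn.2 K hKA hK.1 (by
    rintro rfl
    simp at hRpos)
  obtain ⟨v, hv⟩ := exists_norm hK.1
  obtain ⟨w, hw⟩ := exists_norm hR.1
  have hcR : c ∈ A \ K := Finset.mem_sdiff.2 ⟨hcA, hcK⟩
  rw [Finset.mem_biUnion]
  refine ⟨K.card, ?_, ?_⟩
  · unfold I
    rw [Finset.mem_filter, Finset.mem_range]
    omega
  rw [Finset.mem_biUnion]
  refine ⟨shift v K, ?_, ?_⟩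
  · rw [mem_F]
    exact ⟨card_shift _ _, conn_shift _ hK, hv⟩
  rw [Finset.mem_biUnion]
  refine ⟨shift w (A \ K), ?_, ?_⟩
  · rw [mem_F]
    exact ⟨by rw [card_shift]; omega, conn_shift _ hR, hw⟩
  rw [Finset.mem_biUnion]
  refine ⟨b + v, by rw [mem_shift]; simpa using hb, ?_⟩
  rw [Finset.mem_biUnion]
  refine ⟨c + w, by rw [mem_shift]; simpa using hcR, ?_⟩
  rw [Finset.mem_image]
  refine ⟨c - b, adj_dirs hadj, ?_⟩
  have h3 : shift v K ∪ shift (b + v + (c - b) - (c + w)) (shift w (A \ K)) = shift v A := by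
    rw [shift_shift]
    have : w + (b + v + (c - b) - (c + w)) = v := by abel
    rw [this, ← shift_union, Finset.union_sdiff_of_subset hKA]
  rw [h3]
  have h4 : A = shift (-v) (shift v A) := by
    rw [shift_shift]; simp [shift_zero]
  rw [nrm_shift (v := -v) (by rw [← h4]; exact hnorm), ← h4]

theorem t_cut {n : ℕ} (hn : 2 ≤ n) :
    t n ≤ ∑ m ∈ I n, 4 * m * (n - m) * t m * t (n - m) := by
  rw [t_eq]
  refine (Finset.card_le_card (F_subset hn)).trans (Finset.card_biUnion_le.trans ?_)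
  apply Finset.sum_le_sum
  intro m _
  rw [t_eq m, t_eq (n - m)]
  have h1 : ∀ X ∈ F m, ((F (n - m)).biUnion fun Y => X.biUnion fun p => Y.biUnion fun q =>
      dirs.image (fun e => nrm (X ∪ shift (p + e - q) Y))).card ≤
      (F (n - m)).card * (m * ((n - m) * 4)) := by
    intro X hX
    apply Finset.card_biUnion_le_card_mul
    intro Y hY
    rw [mem_F] at hX hY
    rw [← hX.1]
    apply Finset.card_biUnion_le_card_mul
    intro p _
    rw [hX.1, ← hY.1]
    apply Finset.card_biUnion_le_card_mul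
    intro q _
    rw [← card_dirs]
    exact Finset.card_image_le
  refine (Finset.card_biUnion_le_card_mul _ _ _ h1).trans (le_of_eq ?_)
  ring

/-! ### Concatenation -/

/-- Lexicographic order of cells. -/
def lexlt (p q : ℤ × ℤ) : Prop := p.1 < q.1 ∨ (p.1 = q.1 ∧ p.2 < q.2)

theorem lexlt_trans {p q r : ℤ × ℤ} (h1 : lexlt p q) (h2 : lexlt q r) : lexlt p r := by
  unfold lexlt at *; omega

theorem lexlt_irrefl {p : ℤ × ℤ} (h : lexlt p p) : False := by
  unfold lexlt at h; omega

theorem exists_lexmax {A : Finset (ℤ × ℤ)} (h : A.Nonempty) :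
    ∃ p ∈ A, ∀ q ∈ A, ¬ lexlt p q := by
  obtain ⟨p, hp, hpm⟩ := Finset.exists_max_image A (fun p => toLex p) h
  refine ⟨p, hp, fun q hq => ?_⟩
  have := hpm q hq
  rw [Prod.Lex.toLex_le_toLex] at this
  unfold lexlt
  omega

theorem exists_lexmin {A : Finset (ℤ × ℤ)} (h : A.Nonempty) :
    ∃ p ∈ A, ∀ q ∈ A, ¬ lexlt q p := by
  obtain ⟨p, hp, hpm⟩ := Finset.exists_min_image A (fun p => toLex p) h
  refine ⟨p, hp, fun q hq => ?_⟩
  have := hpm q hq
  rw [Prod.Lex.toLex_le_toLex] at this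
  unfold lexlt
  omega

/-- The vector by which the second polyomino is translated in a concatenation. -/
theorem exists_glue {X Y : Finset (ℤ × ℤ)} (hX : X.Nonempty) (hY : Y.Nonempty) :
    ∃ w : ℤ × ℤ, (∀ p ∈ X, ∀ q ∈ shift w Y, lexlt p q) ∧
      ∃ p ∈ X, ∃ q ∈ shift w Y, cellGraph.Adj p q := by
  obtain ⟨a, ha, ham⟩ := exists_lexmax hX
  obtain ⟨b, hb, hbm⟩ := exists_lexmin hY
  refine ⟨a + (0, 1) - b, ?_, a, ha, a + (0, 1), ?_, ?_⟩
  · intro p hp q hq
    rw [mem_shift] at hq
    have h1 := ham p hp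
    have h2 := hbm _ hq
    unfold lexlt at *
    simp only [Prod.fst_sub, Prod.snd_sub, Prod.fst_add, Prod.snd_add] at h2
    omega
  · rw [mem_shift]
    simpa using hb
  · rw [adj_iff]
    simp

theorem t_mul_le {m n : ℕ} (hm : 1 ≤ m) (hn : 1 ≤ n) : t m * t n ≤ t (m + n) := by
  classical
  have hne : ∀ {k : ℕ} {A : Finset (ℤ × ℤ)}, 1 ≤ k → A ∈ F k → A.Nonempty := by
    intro k A hk hA
    rw [mem_F] at hA
    exact hA.2.1.1
  have hglue : ∀ Z : Finset (ℤ × ℤ) × Finset (ℤ × ℤ), ∃ w : ℤ × ℤ, Z ∈ F m ×ˢ F n →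
      (∀ p ∈ Z.1, ∀ q ∈ shift w Z.2, lexlt p q) ∧
      ∃ p ∈ Z.1, ∃ q ∈ shift w Z.2, cellGraph.Adj p q := by
    intro Z
    by_cases hZ : Z ∈ F m ×ˢ F n
    · rw [Finset.mem_product] at hZ
      obtain ⟨w, hw⟩ := exists_glue (hne hm hZ.1) (hne hn hZ.2)
      exact ⟨w, fun _ => hw⟩
    · exact ⟨0, fun h => absurd h hZ⟩
  choose w hw using hglue
  have hdisj : ∀ Z ∈ F m ×ˢ F n, Disjoint Z.1 (shift (w Z) Z.2) := by
    intro Z hZ
    rw [Finset.disjoint_left]
    intro p hp hq
    exact lexlt_irrefl ((hw Z hZ).1 p hp p hq)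
  have hv : ∀ Z : Finset (ℤ × ℤ) × Finset (ℤ × ℤ), ∃ v : ℤ × ℤ, Z ∈ F m ×ˢ F n →
      Norm (shift v (Z.1 ∪ shift (w Z) Z.2)) := by
    intro Z
    by_cases hZ : Z ∈ F m ×ˢ F n
    · obtain ⟨v, hv⟩ := exists_norm (A := Z.1 ∪ shift (w Z) Z.2)
        ((hne hm (Finset.mem_product.1 hZ).1).mono Finset.subset_union_left)
      exact ⟨v, fun _ => hv⟩
    · exact ⟨0, fun h => absurd h hZ⟩
  choose v hv using hv
  rw [t_eq, t_eq, t_eq, ← Finset.card_product]
  apply Finset.card_le_card_of_injOn (fun Z => shift (v Z) (Z.1 ∪ shift (w Z) Z.2))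
  · intro Z hZ
    have hZ' := Finset.mem_product.1 hZ
    have h1 := mem_F.1 hZ'.1
    have h2 := mem_F.1 hZ'.2
    change shift (v Z) (Z.1 ∪ shift (w Z) Z.2) ∈ (F (m + n) : Set _)
    rw [Finset.mem_coe, mem_F]
    refine ⟨?_, conn_shift _ (conn_union h1.2.1 (conn_shift _ h2.2.1) ?_), hv Z hZ⟩
    · rw [card_shift, Finset.card_union_of_disjoint (hdisj Z hZ), card_shift, h1.1, h2.1]
    · obtain ⟨p, hp, q, hq, hpq⟩ := (hw Z hZ).2
      exact ⟨p, hp, q, hq, Or.inr hpq⟩
  · intro Z hZ Z' hZ' hE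
    have hE : shift (v Z) (Z.1 ∪ shift (w Z) Z.2) = shift (v Z') (Z'.1 ∪ shift (w Z') Z'.2) := hE
    have a1 := mem_F.1 (Finset.mem_product.1 hZ).1
    have a2 := mem_F.1 (Finset.mem_product.1 hZ).2
    have b1 := mem_F.1 (Finset.mem_product.1 hZ').1
    have b2 := mem_F.1 (Finset.mem_product.1 hZ').2
    rw [shift_union, shift_union, shift_shift, shift_shift] at hE
    set S := shift (v Z) Z.1 with hS
    set S' := shift (v Z') Z'.1 with hS'
    set R := shift (w Z + v Z) Z.2 with hR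
    set R' := shift (w Z' + v Z') Z'.2 with hR'
    have hlex : ∀ p ∈ S, ∀ q ∈ R, lexlt p q := by
      intro p hp q hq
      rw [hS, mem_shift] at hp
      rw [hR, mem_shift] at hq
      have := (hw Z hZ).1 _ hp (q - v Z) (by
        rw [mem_shift]
        have e : q - v Z - w Z = q - (w Z + v Z) := by abel
        rw [e]; exact hq)
      unfold lexlt at *
      simp only [Prod.fst_sub, Prod.snd_sub] at this
      omega
    have hlex' : ∀ p ∈ S', ∀ q ∈ R', lexlt p q := by
      intro p hp q hq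
      rw [hS', mem_shift] at hp
      rw [hR', mem_shift] at hq
      have := (hw Z' hZ').1 _ hp (q - v Z') (by
        rw [mem_shift]
        have e : q - v Z' - w Z' = q - (w Z' + v Z') := by abel
        rw [e]; exact hq)
      unfold lexlt at *
      simp only [Prod.fst_sub, Prod.snd_sub] at this
      omega
    have hcS : S.card = m := by rw [hS, card_shift, a1.1]
    have hcS' : S'.card = m := by rw [hS', card_shift, b1.1]
    -- the first parts agree
    have hSS : S = S' := by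
      by_contra hne
      have h1 : ¬ S ⊆ S' := fun h => hne (Finset.eq_of_subset_of_card_le h (by omega))
      have h2 : ¬ S' ⊆ S := fun h => hne (Finset.eq_of_subset_of_card_le h (by omega)).symm
      rw [Finset.not_subset] at h1 h2
      obtain ⟨y, hy, hy'⟩ := h1
      obtain ⟨x, hx, hx'⟩ := h2
      have hyR : y ∈ R' := by
        have : y ∈ S' ∪ R' := by rw [← hE]; exact Finset.mem_union_left _ hy
        exact (Finset.mem_union.1 this).resolve_left hy'
      have hxR : x ∈ R := by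
        have : x ∈ S ∪ R := by rw [hE]; exact Finset.mem_union_left _ hx
        exact (Finset.mem_union.1 this).resolve_left hx'
      exact lexlt_irrefl (lexlt_trans (hlex y hy x hxR) (hlex' x hx y hyR))
    have hRR : R = R' := by
      have d1 : Disjoint S R := by
        rw [Finset.disjoint_left]
        intro p hp hq
        exact lexlt_irrefl (hlex p hp p hq)
      have d2 : Disjoint S' R' := by
        rw [Finset.disjoint_left]
        intro p hp hq
        exact lexlt_irrefl (hlex' p hp p hq)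
      have e1 : R = (S ∪ R) \ S := by
        rw [Finset.union_sdiff_cancel_left d1]
      have e2 : R' = (S' ∪ R') \ S' := by
        rw [Finset.union_sdiff_cancel_left d2]
      rw [e1, e2, hE, hSS]
    have hback : ∀ (u u' : ℤ × ℤ) (A A' : Finset (ℤ × ℤ)), Norm A → Norm A' →
        shift u A = shift u' A' → A = A' := by
      intro u u' A A' hA hA' h
      have h3 : A' = shift (u - u') A := by
        have : A' = shift (-u') (shift u' A') := by rw [shift_shift]; simp [shift_zero]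
        rw [this, ← h, shift_shift]
        congr 1
      rw [h3] at hA'
      have := norm_unique hA hA'
      rw [h3, this, shift_zero]
    exact Prod.ext (hback _ _ _ _ a1.2.2 b1.2.2 hSS) (hback _ _ _ _ a2.2.2 b2.2.2 hRR)

theorem t_one : 1 ≤ t 1 := by
  rw [t_eq]
  apply Finset.card_pos.2
  refine ⟨{(0, 0)}, ?_⟩
  rw [mem_F]
  refine ⟨by simp, conn_singleton _, ?_, ⟨(0, 0), by simp, rfl⟩, ⟨(0, 0), by simp, rfl⟩⟩
  intro p hp
  rw [Finset.mem_singleton] at hp
  rw [hp]
  simp

end Pool.Agent.R111.Klarner
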